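import Pool.Agent.X180.OJ.Top
import Pool.Agent.X180.Abn.Sys1

/-!
# Good minimal models of pairs over towers over linear systems with products of constant orbifolds
and moving arrangements as steps

Let `(X, Δ)` be a projective pair, `Γ` an effective `ℚ`-divisor such that `K_X + Δ - Γ` is
pseudo-effective (for instance `Γ = 0`), and

  `X ⇢ W_l ⇢ ... ⇢ W_1 ⇢ W_0`, `l ≥ 0`,

dominant rational maps. A prime divisor of `X` is *negligible* if it is in the support of `Γ`, or in
the base locus of all `m (K_X + Δ + η A)`, for small `η ≥ 0` (`A` an effective divisor). So the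
divisors which are contracted by each minimal model of `(X, Δ)` may be neglected. Suppose:

* (the base) `W_0`, of dimension `≥ 1`, is the image of a linear system `V` of dimension `n` on `X`, and
  there are members `D_i` of `V`, given by elements `φ i`, which span `V` such that `V` is not the
  direct sum of two nonzero subspaces which together contain all the `φ i`, and if a prime divisor `P`
  of `X` which is not negligible is in one of the `D_i` then the multiplicities of `P` in some `D_i`
  and `D_i'` differ by at least `t (1 - Δ_P)`, where `2 t > R (n - dim W_0 + 1) (n - dim W_0 + 2)`,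
  `R = n + 2` (and even `R = n + 1`, if there are `n + 3` different members `D_i`). The `D_i` are in
  arbitrary position otherwise;
* (the steps of the tower) for each `i < l` the fibres of `W_{i+1}` over `W_i`, of dimension `e_i`,
  *with the boundary `Δ` and the multiplicities of the fibres of `X` over `W_{i+1}`*, correspond to
  the product of one orbifold `V_i` (which does not depend on the point of `W_i`) and of moving log
  canonical arrangements: there are a variety `X'` with a generically finite map `X' ⇢ X` (ramified
  anywhere) and a rational map of `X'` to `V_i × P^{r_1} × ... × P^{r_c}`, `r_j ≥ 1`, which is dominant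
  on the fibres of `X'` over `W_i`, and whose fibres (over `W_i`) are, up to finite maps, the fibres of
  `X' ⇢ W_{i+1}`; `a (p) ≥ 0` is the log discrepancy of an orbifold divisor at the places `p` of `V_i`
  in the image of the prime divisors of `X` (not negligible), and the Kodaira dimension of `(V_i, a)`
  is at least `h_i`; in each `P^{r_j}` there are any hyperplanes `A j k = 0`, in any position, which
  move with the point of a variety finite over `W_i`, with weights `w j k ≥ 0`, such that the
  arrangement is log canonical (the sum of the weights of hyperplanes with a common point is at most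
  the codimension of their intersection) and `∑ k, w j k ≥ r_j + 1`. Let `Q` be a place of the function
  field of `X'` over a prime divisor `P` of `X`, not negligible, with `Δ_P < 1`, which dominates `W_i`
  but not `W_{i+1}`, with ramification index `ε`, let `e j k` be the multiplicities of the hyperplanes
  at `Q`, and `R = ∑ (mx_j - ∑ w j k e j k)`, where `mx_j` is the greatest sum of `r_j + 1` of the
  `e j k` whose hyperplanes have no common point. Then `ε (1 - Δ_P) ≤ ν a (p) + R` if `Q` lies over the
  place `p` of `V_i`, with ramification index `ν`; and if `Q` dominates `V_i` then `ε (1 - Δ_P) ≤ R`, or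
  `ε (1 - Δ_P) ≤ 1` if all `e j k` are zero. Suppose that `h_i` plus the sum of the `r_j` with
  `∑ k, w j k > r_j + 1` is `e_i`.
* (the fibres of `X` over `W_l`, of any log Kodaira dimension) there is a correspondence `X'` as above
  between `X` and a relative product `P^{r_1} × ... × P^{r_c}` over `W_l` (`c = 0` is allowed), with log
  canonical moving hyperplane arrangements with weights in `[0, 1]` (with any sum) and
  `ε (1 - Δ_P) ≤ R` (`ε (1 - Δ_P) ≤ 1`, if all `e j k` are zero) at the prime divisors of `X`, not
  negligible, with `Δ_P < 1`, which dominate `W_l`; and at the places over the prime divisors of the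
  product `K_X + Δ` is at most the pull back of the log canonical divisor of the arrangement (`Cor`).

Then `∑ k, w j k ≥ r_j + 1` for all `j` (for the fibres over `W_l`), and

  `κ(K_X + Δ') = ν(K_X + Δ') = dim W_l + λ`

for all `Δ'` which are equal to `Δ` outside of `Γ` and larger than `Δ - Γ` along `Γ`, where `λ` is the
sum of the `r_j` with `∑ k, w j k > r_j + 1`. There is no condition at all along the components of `Δ`
with coefficient `≥ 1`.

For klt pairs the equality `κ = ν` is equivalent to the existence of a good minimal model, and then
the minimal model program with scaling of an ample divisor terminates with it (Lai, Gongyo and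
Lehmann, Birkar, Cascini, Hacon and McKernan, Hacon and Xu). So if `(X, Δ')` is klt (for instance
`(X, Δ)` lc and all components of `Δ` with coefficient `1`, and enough other divisors, contained in
`Γ`), then there is a finite sequence of steps of the `(K_X + Δ')`-MMP to a pair with `K + Δ'` nef.

Notation: `X` is given by the homogeneous coordinates `y` of its generic point, with values in the
function field `K`; prime divisors are places `P` of `K`, `P.ord` is the order along `P`. `E i` is the
function field of `W_i`. Definitions: `Pool/Agent/X180/OJ/Defs` (`JointFibres`, `IsTower`),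
`OP/Defs`, `AbDefs`.

Proof: the forms of a step are products of the pull backs of the forms of `V_i`, of determinants of
logarithmic derivatives of the linear forms, and of one joint Wronskian of the coordinates of `V_i` and
of the `P^{r_j}`; locally, at `Q`, one compares with the arrangement enlarged by a simplex of
logarithmic coordinates of `V_i` at `p` (`Pool.Agent.X180.OJ.joint_est`). The coefficients are
algebraic over the function field of `W_{i+1}`, and their norms are estimated at the prime divisors of
`X` (`Pool.Agent.X180.OJ.joint_part`). The forms of the steps are multiplied along adapted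
regular vector fields, and with products of generalised Wronskians of the `φ i`
(`Pool.Agent.TH585.SV.lin_fib`, starting library). For the upper bound, sections of
`m (K_X + Δ) + A` are pulled back to
`X'`; their traces are polynomials of bounded degree in the coordinates of the factors with
`∑ k, w j k = r_j + 1`.
-/

set_option autoImplicit false

open FF Pool.Agent.W602.GT Pool.Agent.Y172 Pool.Agent.Y191 Pool.Agent.X180.OP
open Pool.Agent.X180.OJ (IsTower tow_ab)

namespace Pool.Agent.Results.MP_a27c81_ag.JointTowersOverSystems

section

variable {K : Type} [Field K] [Algebra ℂ K]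

/-- The function field of the image of the rational map which is given by the linear system `V`: the
field generated by the quotients of the members. -/
noncomputable def ImageField (V : Submodule ℂ K) : IntermediateField ℂ K :=
  IntermediateField.adjoin ℂ {y : K | ∃ f ∈ V, ∃ g ∈ V, y = f / g}

/-- `V` is not the direct sum of two nonzero subspaces which together contain all the `φ i`. -/
def Indecomposable {q : ℕ} (V : Submodule ℂ K) (φ : Fin q → K) : Prop :=
  ∀ V₁ V₂ : Submodule ℂ K, V₁ ⊔ V₂ = V → V₁ ⊓ V₂ = ⊥ → (∀ i, φ i ∈ V₁ ∨ φ i ∈ V₂) →
    V₁ = ⊥ ∨ V₂ = ⊥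

/-- There are `r` members `φ i` of which no two are proportional. -/
def Different (r : ℕ) {q : ℕ} (φ : Fin q → K) : Prop :=
  ∃ τ : Fin r → Fin q, ∀ i j, i ≠ j → ∀ t : ℂ, φ (τ i) ≠ t • φ (τ j)

/-- The condition on the multiplicities: if the prime divisor `P` of `X` in `S` is a component of one
of the divisors `D i` (the order of `φ i` at `P` is not the minimum `a` of the orders of the members
of `V`), then for some members `D i`, `D i'` the difference of the multiplicities of `P` is at least
`t (1 - Δ P)`. -/
def SystemMultiplicities (S : Set (Place ℂ K)) (Δ : Place ℂ K → ℚ) {q : ℕ} (V : Submodule ℂ K)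
    (φ : Fin q → K) (t : ℝ) : Prop :=
  ∀ P ∈ S, ∀ a : ℤ, (∀ f ∈ V, f = 0 ∨ a ≤ P.ord f) →
    (∃ f ∈ V, f ≠ 0 ∧ P.ord f = a) → (∃ i, P.ord (φ i) ≠ a) →
    ∃ i i', t * (1 - Δ P) ≤ ((P.ord (φ i) - P.ord (φ i') : ℤ) : ℝ)

end

/-- **Abundance.** Let `(X, Δ)` be a projective pair, `Γ` and `A` effective `ℚ`-divisors such that
`K_X + Δ - Γ` is pseudo-effective (tested with `A`), `V` a linear system on `X` of dimension `n`
whose rational map has the image `W_0`, `1 ≤ D 0 = dim W_0 ≤ n`, and `X ⇢ W_l ⇢ ... ⇢ W_0` a tower of
dominant rational maps whose steps are as in `JointFibres`, of dimensions and log Kodaira dimensions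
`e i`, for the relevant prime divisors of `X`. Let `φ i` be nonzero members which span `V`, such that
`V` is not the direct sum of two nonzero subspaces which together contain all the `φ i`. Let
`R = n + 2`, or `R = n + 1` if there are `n + 3` different members `φ i`, and
`t > R (n - D 0 + 1) (n - D 0 + 2) / 2` a number for which the condition on the multiplicities holds
at the relevant prime divisors. Let the fibres of `X` over `W_l` be as in `Fibres`. Then
`r j + 1 ≤ ∑ i, w j i` for all `j`, and the Kodaira dimension and the numerical dimension of
`K_X + Δ'` are `dim W_l` plus the sum of the `r j` with `r j + 1 < ∑ i, w j i`, for all `Δ'` which are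
equal to `Δ` outside of `Γ` and larger than `Δ - Γ` along `Γ`. -/
theorem result {n q : ℕ} (K : Type) [Field K] [Algebra ℂ K] (N l c : ℕ)
    (E : Fin (l + 1) → IntermediateField ℂ K) (D : Fin (l + 1) → ℕ) (e : Fin l → ℕ)
    (hd : 1 ≤ D 0) (hdn : D 0 ≤ n) (r s : Fin c → ℕ) (y : Fin (N + 1) → K)
    (Δ Γ A : Place ℂ K → ℚ) (hy : IsPair y (D (Fin.last l) + ∑ j, r j) Δ) (hΓ : Effective y Γ)
    (hA : Effective y A) (hps : PseudoEffective y (D (Fin.last l) + ∑ j, r j) (Δ - Γ) A)
    (V : Submodule ℂ K) (hn : Module.finrank ℂ V = n + 1) (hE0 : E 0 = ImageField V)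
    (hT : IsTower (Relevant y (D (Fin.last l) + ∑ j, r j) Δ Γ A)
      (fun P => (Δ P : ℝ)) E D e e)
    (φ : Fin q → K) (hφ0 : ∀ i, φ i ≠ 0) (hφ : Submodule.span ℂ (Set.range φ) = V)
    (hI : Indecomposable V φ) (R : ℕ) (hR : R = n + 2 ∨ (Different (n + 3) φ ∧ R = n + 1)) (t : ℝ)
    (ht : (R : ℝ) * (((n : ℝ) - D 0 + 1) * ((n : ℝ) - D 0 + 2)) < 2 * t)
    (hm : SystemMultiplicities (Relevant y (D (Fin.last l) + ∑ j, r j) Δ Γ A) Δ V φ t)
    (w : ∀ j, Fin (s j) → ℚ)
    (hF : Fibres y (D (Fin.last l) + ∑ j, r j) Δ
      {P | P ∈ Relevant y (D (Fin.last l) + ∑ j, r j) Δ Γ A ∧ Δ P < 1} (E (Fin.last l)) r s w) :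
    Abundance y (D (Fin.last l) + ∑ j, r j) Δ Γ (D (Fin.last l)) r s w := by
  have hn' : D (Fin.last l) + ∑ j, r j = D 0 + (∑ i, e i + ∑ j, r j) := by
    rw [Pool.Agent.X180.TP.dims fun i => (hT.2 i).2.1, add_assoc]
  have hV : Algebra.trdeg ℂ (ImageField V) = (D 0 : ℕ) := by
    rw [← hE0]
    exact hT.1 0
  have hK : Algebra.trdeg ℂ K = (D 0 + (∑ i, e i + ∑ j, r j) : ℕ) := by
    rw [hy.2.1, hn']
  refine tow_ab hy hΓ hA hps hT (fun _ => rfl) hF fun lam' h0 => ?_
  rw [hE0] at h0
  refine (Pool.Agent.X180.Iso.sys_pair (c := 1) hd hdn hK hV hφ0 hφ
    (Pool.Agent.X180.Abn.dcp_one hφ hn) (Pool.Agent.X180.Abn.not_dcp hI)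
    (hR.imp (fun h => by omega) fun h => ⟨rfl, h⟩) ht.le
    (fun P hP => Rat.cast_nonneg.2 (hy.2.2.1 P hP.1)) (fun P hPX _ a ha hb hc => ?_)
    h0).2 ht (D 0) (by omega)
  obtain ⟨i, i', h⟩ := hm P hPX a ha hb hc
  exact ⟨i, i', rfl, h⟩

end Pool.Agent.Results.MP_a27c81_ag.JointTowersOverSystems
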