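import Pool.Agent.X325.OB.LcBase
import Pool.Agent.X180.OP.MixDefsB

/-!
# Good minimal models of klt pairs over mixed towers over log Calabi-Yau bases

Let `(X, Δ)` be a projective pair, `Γ` an effective `ℚ`-divisor such that `K_X + Δ - Γ` is
pseudo-effective (for instance `Γ = 0`), and

  `X ⇢ W_l ⇢ ... ⇢ W_1 ⇢ W_0 = P^{n_1} × ... × P^{n_m}`, `l ≥ 0`,

dominant rational maps. A prime divisor of `X` is *negligible* if it is in the support of `Γ`, or in
the base locus of all `m (K_X + Δ + η A)`, for small `η ≥ 0` (`A` an effective divisor). So the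
divisors which are contracted by each minimal model of `(X, Δ)` may be neglected. Suppose:

* (the base) in each factor there are hyperplanes `ℓ i k = 0`, in any position, with weights
  `wt i k ≥ 0` such that the arrangement is log canonical (the sum of the weights of hyperplanes with
  a common point is at most the codimension of their intersection) and `∑ k, wt i k ≥ n i + 1`: a log
  Calabi-Yau arrangement if `∑ k, wt i k = n i + 1`, and one of log general type otherwise. If the
  `v i k` are the multiplicities of the hyperplanes at a prime divisor `P` of `X` which is not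
  negligible, not all zero, then `1 - Δ_P ≤ ∑ i, (mx_i - ∑ k, wt i k * v i k)`, where `mx_i` is the
  greatest sum of `n i + 1` of the `v i k` whose hyperplanes have no common point, with strict
  inequality if a distinguished hyperplane `k0 i` of a log Calabi-Yau factor has a positive
  multiplicity at `P`;
* (the steps of the tower) for each `i < l` one of the following:
  * (orbifold) the fibres of `W_{i+1}` over `W_i`, *with the boundary `Δ` and the multiplicities of
    the fibres of `X` over `W_{i+1}`*, correspond to moving log canonical arrangements of log general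
    type (`OrbifoldFibres`);
  * (isotrivial) after a generically finite base change `W_i' → W_i` the variety
    `W_{i+1} ×_{W_i} W_i'` has a generically finite rational map to `W_i' × V_i` over `W_i'`, where
    `V_i` is a smooth projective variety of general type of dimension `dim W_{i+1} - dim W_i`;
* (the fibres of `X` over `W_l`, of any log Kodaira dimension) there is a correspondence `X'` between
  `X` and a relative product `P^{r_1} × ... × P^{r_c}` over `W_l`, with log canonical moving
  hyperplane arrangements with weights in `[0, 1]`, with conditions on the multiplicities at the prime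
  divisors of `X`, not negligible, which dominate `W_l`, and at the places over the prime divisors of
  the product (`Fibres`).

Then `∑ k, w j k ≥ r_j + 1` for all `j` (for the fibres over `W_l`), and

  `κ(K_X + Δ') = ν(K_X + Δ') = dim W_l + λ`

for all `Δ'` which are equal to `Δ` outside of `Γ` and larger than `Δ - Γ` along `Γ`, where `λ` is the
sum of the `r_j` with `∑ k, w j k > r_j + 1`.

For klt pairs the equality `κ = ν` is equivalent to the existence of a good minimal model, and then
the minimal model program with scaling of an ample divisor terminates with it (Lai, Gongyo and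
Lehmann, Birkar, Cascini, Hacon and McKernan, Hacon and Xu). So if `X` is `ℚ`-factorial and
`(X, Δ')` is klt then the minimal model program exists for `(X, Δ')` and ends with outcome 1.

The definitions are those of `Pool/Agent/X180/OP/Defs`, `AbDefs`, `MixDefsB` and
`Pool/Agent/Y191/LcForm`, `LcLow`.
-/

set_option autoImplicit false

open FF Pool.Agent.W602.GT Pool.Agent.Y172 Pool.Agent.Y191
open Pool.Agent.X180.OP (IsPair Fibres Relevant PseudoEffective Abundance)
open Pool.Agent.X180.OM (IsMixedTower)

namespace Pool.Agent.Results.MP_a27c81_ag.MixedTowersOverCalabiYauBases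

variable {m : ℕ} {n q : Fin m → ℕ}

/-- The base: the hyperplanes `ℓ i k = 0` in the projective space of dimension `n i` have weights
`wt i k ≥ 0` with sum at least `n i + 1`, and the arrangements are log canonical (`LcArr`, over the
field of constants). -/
def IsBase (ℓ : ∀ i, Fin (q i) → Fin (n i + 1) → ℂ) (wt : ∀ i, Fin (q i) → ℚ) : Prop :=
  (∀ i, (∀ k, 0 ≤ wt i k) ∧ (n i + 1 : ℚ) ≤ ∑ k, wt i k) ∧
    LcArr (⊥ : IntermediateField ℂ ℂ) ℓ wt

/-- The affine coordinates `x i (j + 1) / x i 0` of the points with the homogeneous coordinates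
`x i`. -/
def affine {K : Type} [Field K] (x : ∀ i, Fin (n i + 1) → K) (b : (i : Fin m) × Fin (n i)) : K :=
  x b.1 b.2.succ / x b.1 0

/-- The multiplicities over the base, at the prime divisors `P` in the set `S`: if the hyperplanes
`ℓ i k` have the multiplicities `v i k` at `P` (their orders are `a i + v i k`, where `a i` is the
minimum of the orders of the coordinates `x i j`), not all zero, then
`1 - Δ P ≤ ∑ i, (mx_i - ∑ k, wt i k * v i k)`, with strict inequality if the multiplicity of the
distinguished hyperplane `k0 i` is positive for some `i` with `∑ k, wt i k = n i + 1`. -/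
def Multiplicities {K : Type} [Field K] [Algebra ℂ K] (S : Set (Place ℂ K)) (Δ : Place ℂ K → ℚ)
    (ℓ : ∀ i, Fin (q i) → Fin (n i + 1) → ℂ) (wt : ∀ i, Fin (q i) → ℚ)
    (x : ∀ i, Fin (n i + 1) → K) (k0 : ∀ i, Fin (q i)) : Prop :=
  ∀ P ∈ S, ∀ (a : Fin m → ℤ) (v : ∀ i, Fin (q i) → ℕ),
    (∀ i, MOrd P (fun k j => algebraMap ℂ K (ℓ i k j)) (x i) (a i) (v i)) → (∃ i, v i ≠ 0) →
    1 - Δ P ≤ ∑ i, ((mx ℓ i (v i) : ℚ) - ∑ k, wt i k * v i k) ∧
      ((∃ i, ∑ k, wt i k = (n i + 1 : ℚ) ∧ v i (k0 i) ≠ 0) →
        1 - Δ P < ∑ i, ((mx ℓ i (v i) : ℚ) - ∑ k, wt i k * v i k))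

/-- **Abundance.** Let `ℓ i` be log canonical arrangements of hyperplanes with weights `wt i k` with
sums at least `n i + 1`, as in `IsBase`. Let `(X, Δ)` be a projective pair, `Γ` and `A` effective
`ℚ`-divisors such that `K_X + Δ - Γ` is pseudo-effective (tested with `A`), and
`X ⇢ W_l ⇢ ... ⇢ W_0` a mixed tower over the product `W_0` of the projective spaces, given by
homogeneous coordinates `x i`, whose steps are of (log) general type. Suppose that the condition
`Multiplicities` holds at the relevant prime divisors of `X`, and let the fibres of `X` over `W_l` be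
as in `Fibres`. Then `r j + 1 ≤ ∑ i, w j i` for all `j`, and the Kodaira dimension and the numerical
dimension of `K_X + Δ'` are `dim W_l` plus the sum of the `r j` with `r j + 1 < ∑ i, w j i`, for all
`Δ'` which are equal to `Δ` outside of `Γ` and larger than `Δ - Γ` along `Γ`. -/
theorem result (ℓ : ∀ i, Fin (q i) → Fin (n i + 1) → ℂ) (wt : ∀ i, Fin (q i) → ℚ)
    (hℓ : IsBase ℓ wt) (k0 : ∀ i, Fin (q i))
    (K : Type) [Field K] [Algebra ℂ K] (N l c : ℕ)
    (E : Fin (l + 1) → IntermediateField ℂ K) (D : Fin (l + 1) → ℕ) (e : Fin l → ℕ)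
    (r s : Fin c → ℕ) (y : Fin (N + 1) → K) (Δ Γ A : Place ℂ K → ℚ)
    (hy : IsPair y (D (Fin.last l) + ∑ j, r j) Δ) (hΓ : Effective y Γ) (hA : Effective y A)
    (hps : PseudoEffective y (D (Fin.last l) + ∑ j, r j) (Δ - Γ) A) (x : ∀ i, Fin (n i + 1) → K)
    (hx0 : ∀ i, x i 0 ≠ 0) (hind : AlgebraicIndependent ℂ (affine x))
    (hE0 : E 0 = IntermediateField.adjoin ℂ (Set.range (affine x)))
    (hm : Multiplicities (Relevant y (D (Fin.last l) + ∑ j, r j) Δ Γ A) Δ ℓ wt x k0)
    (hT : IsMixedTower (Relevant y (D (Fin.last l) + ∑ j, r j) Δ Γ A)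
      (fun P => (Δ P : ℝ)) E D e e)
    (w : ∀ j, Fin (s j) → ℚ)
    (hF : Fibres y (D (Fin.last l) + ∑ j, r j) Δ (Relevant y (D (Fin.last l) + ∑ j, r j) Δ Γ A)
      (E (Fin.last l)) r s w) :
    Abundance y (D (Fin.last l) + ∑ j, r j) Δ Γ (D (Fin.last l)) r s w :=
  Pool.Agent.X325.OB.mixed_ab (fun i => (hℓ.1 i).1) (fun i => (hℓ.1 i).2) hℓ.2 hy hΓ hA hps hx0
    hind hE0 k0 hm hT hF

end Pool.Agent.Results.MP_a27c81_ag.MixedTowersOverCalabiYauBases
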