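import Pool.Agent.X180.OP.Ab
import Pool.Agent.X180.OP.Prod

/-!
# Good minimal models of klt pairs over orbifold towers over products of projective spaces

For `i < m` let `ℓ i k = 0`, `k < q i`, be hyperplanes in projective `n i`-space, an arbitrary
arrangement which is not reducible. Let `(X, Δ)` be a projective pair, `Γ` an effective `ℚ`-divisor
such that `K_X + Δ - Γ` is pseudo-effective (for instance `Γ = 0`), and

  `X ⇢ W_l ⇢ ... ⇢ W_1 ⇢ W_0 = P^{n_1} × ... × P^{n_m}`, `l ≥ 0`,

dominant rational maps. A prime divisor of `X` is *negligible* if it is in the support of `Γ`, or in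
the base locus of all `m (K_X + Δ + η A)`, for small `η ≥ 0` (`A` an effective divisor). So the
divisors which are contracted by each minimal model of `(X, Δ)` may be neglected. Suppose:

* (the base) if `v i k` are the multiplicities of the hyperplanes at a prime divisor `P` of `X` which
  is not negligible, not all zero, then `∑ i, v i (k i) / d i > 1 - Δ_P` for some choice of
  hyperplanes `k i`, one for each factor. Here `d i` is `n i + 2`, or only `n i + 1` if the
  arrangement in the factor does not consist of `n i + 2` hyperplanes in general position. There is
  no condition along the components of `Δ` with coefficient `1`, and the multiplicities in the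
  different factors are added;
* (the steps of the tower) for each `i < l` the fibres of `W_{i+1}` over `W_i`, *with the boundary
  `Δ` and the multiplicities of the fibres of `X` over `W_{i+1}`*, correspond to moving log canonical
  arrangements of log general type: there is a variety `X'` with a generically finite map `X' ⇢ X`
  (ramified anywhere) and a rational map over `W_i` of `X'` to a relative product of projective spaces
  `P^{r_1} × ... × P^{r_c}`, `r_j ≥ 1`, whose fibres are, up to finite maps, the fibres of
  `X' ⇢ W_{i+1}`; in each `P^{r_j}` there are any hyperplanes `A j k = 0`, in any position, which move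
  with the point of a variety finite over `W_i`, with weights `w j k ≥ 0`, such that the arrangement
  is log canonical (the sum of the weights of hyperplanes with a common point is at most the
  codimension of their intersection) and `∑ k, w j k > r_j + 1`. If `Q` is a place of the function
  field of `X'` over a prime divisor `P` of `X`, not negligible, which dominates `W_i` but not
  `W_{i+1}`, with ramification index `ε`, and `e j k` are the multiplicities of the hyperplanes at
  `Q`, not all zero, then `ε (1 - Δ P) ≤ ∑ (mx_j - ∑ w j k e j k)`, where `mx_j` is the greatest sum
  of `r_j + 1` of the `e j k` whose hyperplanes have no common point (`ε (1 - Δ P) ≤ 1`, if all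
  `e j k` are zero). The `W_i` may all be rational. For instance, if `W_{i+1}` is a projective bundle
  over `W_i`, and the hyperplanes are in general position, this means that the components `P` of the
  fibres of `X` over the hyperplane `A j k = 0` have multiplicity at least `(1 - Δ P) / (1 - w j k)`;
* (the fibres of `X` over `W_l`, of any log Kodaira dimension) there is a correspondence `X'` as above
  between `X` and a relative product `P^{r_1} × ... × P^{r_c}` over `W_l`, with log canonical moving
  hyperplane arrangements with weights in `[0, 1]` (with any sum) and the same condition at the prime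
  divisors of `X`, not negligible, which dominate `W_l`; and at the places over the prime divisors of
  the product `K_X + Δ` is at most the pull back of the log canonical divisor of the arrangement
  (`Cor`).

Then `∑ k, w j k ≥ r_j + 1` for all `j` (for the fibres over `W_l`), and

  `κ(K_X + Δ') = ν(K_X + Δ') = dim W_l + λ`

for all `Δ'` which are equal to `Δ` outside of `Γ` and larger than `Δ - Γ` along `Γ`, where `λ` is the
sum of the `r_j` with `∑ k, w j k > r_j + 1`.

For klt pairs the equality `κ = ν` is equivalent to the existence of a good minimal model, and then
the minimal model program with scaling of an ample divisor terminates with it (Lai, Gongyo and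
Lehmann, Birkar, Cascini, Hacon and McKernan, Hacon and Xu). So if `X` is `ℚ`-factorial and
`(X, Δ')` is klt (for instance `(X, Δ)` lc and all components of `Δ` with coefficient `1`, and enough
other divisors, contained in `Γ`), then the minimal model program exists for `(X, Δ')` and ends with
outcome 1. (If `K_X + Δ'` is not pseudo-effective it ends with outcome 2, which is known.)

Notation: `X` is given by the homogeneous coordinates `y` of its generic point, with values in the
function field `K`; prime divisors are places `P` of `K`, `P.ord` is the order along `P`. `E i` is the
function field of `W_i`. The dominant rational map to the product is given by homogeneous coordinates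
`x i j` such that the affine coordinates `x i (j + 1) / x i 0` are algebraically independent.
Definitions: `Pool/Agent/X180/OP/Defs`, `AbDefs`, `ProdDefs`; `Form`, `Reducible`:
`Pool/Agent/W602/Cov/Defs`.

Proof: for a step `Z' → Z` of the tower the products of determinants of logarithmic derivatives of the
linear forms are forms of degree `dim Z' - dim Z` along the fibres; their norms are estimated at the
prime divisors of `X` (`Pool.Agent.X180.Orb`), and are multiplied with adapted regular vector fields,
and with the forms of the base: for an irreducible arrangement there are weights on the bases of the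
matroid such that the products of the forms `det (d log)` have a positive slack at all flats
(`Pool.Agent.X180.Multi`). For the upper bound, sections of `m (K_X + Δ) + A` are pulled back to `X'`;
their traces are polynomials of bounded degree in the coordinates of the factors with
`∑ k, w j k = r_j + 1`.
-/

set_option autoImplicit false

open FF Module Pool.Agent.W602.Cov Pool.Agent.W602.GT Pool.Agent.Y172 Pool.Agent.Y191
open Pool.Agent.X180.OP

namespace Pool.Agent.Results.MP_a27c81_ag.OrbifoldTowersOverProducts

/-- **Abundance.** Let `ℓ i` be arbitrary arrangements of hyperplanes, which are not reducible, in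
projective spaces of dimensions `n i ≥ 1`, `d i` the bounds. Let `(X, Δ)` be a projective pair, `Γ`
and `A` effective `ℚ`-divisors such that `K_X + Δ - Γ` is pseudo-effective (tested with `A`), and
`X ⇢ W_l ⇢ ... ⇢ W_0` an orbifold tower over the product `W_0` of the projective spaces, given by
homogeneous coordinates `x i`, whose steps are of log general type. Suppose that at each relevant prime
divisor `P` of `X` over one of the hyperplanes `1 - Δ P < ∑ i, v i (k i) / d i` for the multiplicities
`v` and some `k`, and let the fibres of `X` over `W_l` be as in `Fibres`. Then `r j + 1 ≤ ∑ i, w j i`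
for all `j`, and the Kodaira dimension and the numerical dimension of `K_X + Δ'` are `dim W_l` plus
the sum of the `r j` with `r j + 1 < ∑ i, w j i`, for all `Δ'` which are equal to `Δ` outside of `Γ`
and larger than `Δ - Γ` along `Γ`. -/
theorem result {m : ℕ} (n q : Fin m → ℕ) (hn : ∀ i, 1 ≤ n i)
    (ℓ : ∀ i, Fin (q i) → Form (n i)) (hℓ : ∀ i k, ℓ i k ≠ 0) (hr : ∀ i, ¬ Reducible (ℓ i))
    (d : Fin m → ℕ) (hd : ∀ i, Bound (ℓ i) (d i)) (K : Type) [Field K] [Algebra ℂ K]
    (N l c : ℕ) (E : Fin (l + 1) → IntermediateField ℂ K) (D : Fin (l + 1) → ℕ) (e : Fin l → ℕ)
    (r s : Fin c → ℕ) (y : Fin (N + 1) → K) (Δ Γ A : Place ℂ K → ℚ)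
    (hy : IsPair y (D (Fin.last l) + ∑ j, r j) Δ) (hΓ : Effective y Γ) (hA : Effective y A)
    (hps : PseudoEffective y (D (Fin.last l) + ∑ j, r j) (Δ - Γ) A) (x : ∀ i, Fin (n i + 1) → K)
    (hx0 : ∀ i, x i 0 ≠ 0) (hind : AlgebraicIndependent ℂ (affine x)) (hE0 : E 0 = BaseField x)
    (hm : Multiplicities (Relevant y (D (Fin.last l) + ∑ j, r j) Δ Γ A) Δ ℓ x d (· < ·))
    (hT : IsOrbifoldTower (Relevant y (D (Fin.last l) + ∑ j, r j) Δ Γ A)
      (fun P => (Δ P : ℝ)) E D e e)
    (w : ∀ j, Fin (s j) → ℚ)
    (hF : Fibres y (D (Fin.last l) + ∑ j, r j) Δ (Relevant y (D (Fin.last l) + ∑ j, r j) Δ Γ A)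
      (E (Fin.last l)) r s w) :
    Abundance y (D (Fin.last l) + ∑ j, r j) Δ Γ (D (Fin.last l)) r s w := by
  have hn' : D (Fin.last l) + ∑ j, r j = D 0 + (∑ i, e i + ∑ j, r j) := by
    rw [Pool.Agent.X180.TP.dims fun i => (hT.2 i).2.1, add_assoc]
  have htr : D 0 = ∑ i, n i := by
    have h3 := hT.1 0
    rw [hE0, trdeg_base hind] at h3
    exact_mod_cast h3.symm
  refine ab_gen hy hΓ hA hps hT (fun _ => rfl) hF fun lam' h0 => ?_
  rw [hE0, htr] at h0
  rw [htr]
  refine (prod_base hn hℓ hr hd hx0 hind (by rw [← htr, ← hn']; exact hy.2.1)
    (fun P hP => hy.2.2.1 P hP.1) (hy.2.2.2.subset fun P hP => ⟨hP.1.1, hP.2⟩) h0).2 hm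

end Pool.Agent.Results.MP_a27c81_ag.OrbifoldTowersOverProducts
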