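import Pool.Agent.X325.OB.TowC

/-!
# Good minimal models of klt pairs over towers over subvarieties of projective space

Let `(X, Δ)` be a projective pair, `Γ` an effective `ℚ`-divisor such that `K_X + Δ - Γ` is
pseudo-effective (for instance `Γ = 0`), and

  `X ⇢ W_l ⇢ ... ⇢ W_1 ⇢ W_0 ⊂ P^v`, `l ≥ 0`,

dominant rational maps, where `W_0` is any subvariety of `P^v`, of dimension `D 0`. A prime divisor
of `X` is *negligible* if it is in the support of `Γ`, or in the base locus of all `m (K_X + Δ + η
A)`, for small `η ≥ 0` (`A` an effective divisor). Suppose: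

* (the base) `ℓ i = 0`, `i < q`, are hyperplanes in general position which do not contain `W_0`,
  such that the points `ℓ i` impose independent conditions on the forms of degree `d`, with weights
  `wt i ≥ 0` whose sum is at least `(D 0 + 1) γ`, `γ = (v - D 0 + d).choose (v - D 0)`; if `μ i` are
  the multiplicities of the hyperplanes `ℓ i = 0` at a prime divisor `P` of `X`, not negligible (for
  the divisors without fixed component which the map defines), not all zero, then `min (#{i | μ i ≠
  0}) γ ≤ γ Δ_P + ∑ i, (1 - wt i) μ i`. In the *borderline case*, when the sum of the weights is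
  equal to `(D 0 + 1) γ`, the inequality is strict if the multiplicity `μ k0` of one distinguished
  hyperplane is positive. (If `W_0 = P^{D 0}` then `γ = 1`, and the borderline case is the one in
  which the orbifold base is of log Calabi-Yau type);
* (the steps of the tower) for each `i < l` one of the following, with conditions only at the prime
  divisors `P` of `X` which are not negligible and have a coefficient `Δ_P < 1`:
  * (orbifold) the fibres of `W_{i+1}` over `W_i`, *with the boundary `Δ` and the multiplicities of
    the fibres of `X` over `W_{i+1}`*, correspond to moving log canonical arrangements, of log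
    general type (`OrbifoldFibres`);
  * (constant) the fibres of `W_{i+1}` over `W_i`, with the boundary `Δ` and the multiplicities of
    the fibres of `X` over `W_{i+1}`, correspond to one orbifold `(V_i, a_i)` of general type: there
    are a variety `X'` with a generically finite map `X' ⇢ X` and a rational map `X' ⇢ V_i` which is
    constant on the fibres of `X' ⇢ W_{i+1}` and dominant on the fibres of `X' ⇢ W_i`; `a_i (p)` is
    a nonnegative function (the log discrepancy) of places of `V_i`, and at the places `Q` over `P`
    (with ramification index `ε`) which lie over `p` (with ramification index `ν`) one has `ε (1 -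
    Δ_P) ≤ ν a_i (p)` (`ConstantFibres`). For instance `V_i` is a smooth projective variety, `a_i =
    1`, and the fibres of `W_{i+1}` over `W_i` are birational to `V_i`;
* (the fibres of `X` over `W_l`, of any log Kodaira dimension) there is a correspondence `X'`
  between `X` and a relative product `P^{r_1} × ... × P^{r_c}` over `W_l`, with log canonical moving
  hyperplane arrangements with weights in `[0, 1]`, with conditions on the multiplicities at the
  prime divisors of `X`, not negligible, with `Δ_P < 1`, which dominate `W_l`, and at the places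
  over the prime divisors of the product (`Fibres`).

Then `∑ k, w j k ≥ r_j + 1` for all `j` (for the fibres over `W_l`), and

  `κ(K_X + Δ') = ν(K_X + Δ') = dim W_l + λ`

for all `Δ'` which are equal to `Δ` outside of `Γ` and larger than `Δ - Γ` along `Γ`, where `λ` is
the sum of the `r_j` with `∑ k, w j k > r_j + 1`.

For klt pairs the equality `κ = ν` is equivalent to the existence of a good minimal model, and then
the minimal model program with scaling of an ample divisor terminates with it (Lai, Gongyo and
Lehmann, Birkar, Cascini, Hacon and McKernan, Hacon and Xu). So if `X` is `ℚ`-factorial and `(X,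
Δ')` is klt then the minimal model program exists for `(X, Δ')` and ends with outcome 1. (If `(X,
Δ)` is lc, for instance, the components of `Δ` with coefficient `1` and enough other divisors may be
contained in `Γ`.)

The definitions are those of `Pool/Agent/X180/OP/AbDefs`, `X180/OC/Defs` and
`Pool/Agent/Y191/LcForm`, `LcLow`.
-/

set_option autoImplicit false

open FF Pool.Agent.W602.GT Pool.Agent.Y172 Pool.Agent.Y191
open Pool.Agent.X180.OP (IsPair Fibres PseudoEffective Relevant Abundance)
open Pool.Agent.X180.OC (IsTower)

namespace Pool.Agent.Results.MP_a27c81_ag.TowersOverSubvarieties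

/-- The function field of the image of the rational map with the coordinates `b j`. -/
noncomputable def ImageField {K : Type} [Field K] [Algebra ℂ K] {v : ℕ} (b : Fin (v + 1) → K) :
    IntermediateField ℂ K :=
  IntermediateField.adjoin ℂ {f : K | ∃ i j, b j ≠ 0 ∧ f = b i / b j}

/-- The `b j` are the coordinates of a rational map whose image has dimension `p` and is not
contained in one of the hyperplanes `ℓ i = 0`. -/
def IsMap {K : Type} [Field K] [Algebra ℂ K] {v q : ℕ} (ℓ : Fin q → Fin (v + 1) → ℂ)
    (b : Fin (v + 1) → K) (p : ℕ) : Prop :=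
  (∀ i, ∑ j, algebraMap ℂ K (ℓ i j) * b j ≠ 0) ∧ (∃ j, b j ≠ 0) ∧
    Algebra.trdeg ℂ (ImageField b) = p

/-- The multiplicities over the base, at the prime divisors `P ∈ S` of `X`: if the hyperplanes `ℓ i
= 0` have the multiplicities `μ i` at `P`, not all zero, then `min (#{i | μ i ≠ 0}) γ ≤ γ Δ_P + ∑ i,
(1 - wt i) μ i`, with strict inequality if the sum of the weights is `p * γ` and the multiplicity of
the distinguished hyperplane `k0` is positive. -/
def Multiplicities {K : Type} [Field K] [Algebra ℂ K] {v q : ℕ} (S : Set (Place ℂ K)) (Δ : Place ℂ K → ℚ)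
    (ℓ : Fin q → Fin (v + 1) → ℂ) (b : Fin (v + 1) → K) (wt : Fin q → ℚ)
    (p γ : ℕ) (k0 : Fin q) : Prop :=
  ∀ P ∈ S, ∀ (a : ℤ) (μ : Fin q → ℕ),
    MOrd P (fun k j => algebraMap ℂ K (ℓ k j)) b a μ → μ ≠ 0 →
    ((min (Finset.univ.filter fun i => μ i ≠ 0).card γ : ℕ) : ℚ) ≤
      (γ : ℕ) * Δ P + ∑ i, (1 - wt i) * μ i ∧
    (((p * γ : ℕ) : ℚ) = ∑ i, wt i → μ k0 ≠ 0 →
      ((min (Finset.univ.filter fun i => μ i ≠ 0).card γ : ℕ) : ℚ) <
        (γ : ℕ) * Δ P + ∑ i, (1 - wt i) * μ i)

/-- **Abundance.** Let `ℓ i = 0` be hyperplanes in `P^v` in general position which impose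
independent conditions on the forms of degree `d ≥ 1`. Let `(X, Δ)` be a projective pair, `Γ` and
`A` effective `ℚ`-divisors such that `K_X + Δ - Γ` is pseudo-effective (tested with `A`), and `b`
the coordinates of a rational map `X ⇢ P^v` whose image is the bottom `W_0`, of dimension `D 0`, not
contained in a hyperplane `ℓ i = 0`, of a tower `X ⇢ W_l ⇢ ... ⇢ W_0` whose steps (orbifold
fibrations or constant orbifolds) are of (log) general type. Let `wt i ≥ 0` be weights whose sum is
at least `(D 0 + 1) * γ`, where `γ = (v - D 0 + d).choose (v - D 0)`. Suppose that the condition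
`Multiplicities` holds at the relevant prime divisors of `X`, and let the fibres of `X` over `W_l`
be as in `Fibres`. Then `r j + 1 ≤ ∑ i, w j i` for all `j`, and the Kodaira dimension and the
numerical dimension of `K_X + Δ'` are `dim W_l` plus the sum of the `r j` with `r j + 1 < ∑ i, w j
i`, for all `Δ'` which are equal to `Δ` outside of `Γ` and larger than `Δ - Γ` along `Γ`. -/
theorem result {v q d : ℕ} (hd : 0 < d) (ℓ : Fin q → Fin (v + 1) → ℂ) (hI : Independent d ℓ)
    (hg : GeneralPosition ℓ) (hq : v + 1 ≤ q)
    (K : Type) [Field K] [Algebra ℂ K] (N l c : ℕ)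
    (E : Fin (l + 1) → IntermediateField ℂ K) (D : Fin (l + 1) → ℕ) (e : Fin l → ℕ)
    (r s : Fin c → ℕ) (y : Fin (N + 1) → K) (Δ Γ A : Place ℂ K → ℚ)
    (hy : IsPair y (D (Fin.last l) + ∑ j, r j) Δ) (hΓ : Effective y Γ)
    (hA : Effective y A) (hps : PseudoEffective y (D (Fin.last l) + ∑ j, r j) (Δ - Γ) A)
    (b : Fin (v + 1) → K) (hb : IsMap ℓ b (D 0)) (hE0 : E 0 = ImageField b)
    (wt : Fin q → ℚ) (hwt : ∀ i, 0 ≤ wt i)
    (hs : (((D 0 + 1) * (v - D 0 + d).choose (v - D 0) : ℕ) : ℚ) ≤ ∑ i, wt i) (k0 : Fin q)
    (hm : Multiplicities (Relevant y (D (Fin.last l) + ∑ j, r j) Δ Γ A) Δ ℓ b wt (D 0 + 1)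
      ((v - D 0 + d).choose (v - D 0)) k0)
    (hT : IsTower {P | P ∈ Relevant y (D (Fin.last l) + ∑ j, r j) Δ Γ A ∧ Δ P < 1}
      (fun P => (Δ P : ℝ)) E D e e)
    (w : ∀ j, Fin (s j) → ℚ)
    (hF : Fibres y (D (Fin.last l) + ∑ j, r j) Δ
      {P | P ∈ Relevant y (D (Fin.last l) + ∑ j, r j) Δ Γ A ∧ Δ P < 1} (E (Fin.last l)) r s w) :
    Abundance y (D (Fin.last l) + ∑ j, r j) Δ Γ (D (Fin.last l)) r s w :=
  Pool.Agent.X325.OB.small_tow_ab hd hI hg hq hy hΓ hA hps hb.1 hb.2.1 hE0 hwt hs k0
    (fun P hP a μ ho hμ => hm P hP a μ (Pool.Agent.X325.OB.mord_ord ho) hμ) hT hF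

end Pool.Agent.Results.MP_a27c81_ag.TowersOverSubvarieties
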